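import Pool.Agent.Helper58.DH.Goals

/-! F_RIC: the Ricci components and the equations. -/

set_option autoImplicit false

namespace Pool.Agent.Helper8.DH

open Pool.Agent.Helper58.DH

theorem sum_ind (p q r k : Fin 6) (S : Finset (Fin 6 × Fin 6))
    (h : (Finset.univ.filter fun x : Fin 6 × Fin 6 ↦
      ({x.1, x.2, k} : Multiset (Fin 6)) = {p, q, r}) = S) (F : Fin 6 → Fin 6 → ℝ) :
    ∑ i, ∑ j, ind p q r i j k * F i j = ∑ x ∈ S, F x.1 x.2 := by
  rw [← h, Finset.sum_filter, ← Finset.univ_product_univ, Finset.sum_product]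
  refine Finset.sum_congr rfl fun i _ ↦ Finset.sum_congr rfl fun j _ ↦ ?_
  unfold ind
  split_ifs <;> simp

theorem sum_AF (ε p q m : ℝ) (k : Fin 6) (F : Fin 6 → Fin 6 → ℝ) :
    ∑ i, ∑ j, AF ε p q m i j k * F i j =
      (p * q * (p + ε) * ∑ i, ∑ j, ind 0 1 2 i j k * F i j +
        p * q * (q + ε) * ∑ i, ∑ j, ind 0 1 3 i j k * F i j +
        p * q * m * ∑ i, ∑ j, ind 0 4 5 i j k * F i j +
        p * q * m * ∑ i, ∑ j, ind 1 4 5 i j k * F i j +
        p * (p + ε) * m * ∑ i, ∑ j, ind 2 4 4 i j k * F i j +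
        q * (q + ε) * m * ∑ i, ∑ j, ind 3 5 5 i j k * F i j) /
        (2 * p + 2 * q + m + 2 * ε) := by
  simp only [Finset.mul_sum, ← Finset.sum_add_distrib, Finset.sum_div]
  refine Finset.sum_congr rfl fun i _ ↦ Finset.sum_congr rfl fun j _ ↦ ?_
  unfold AF
  ring

theorem f_ric : F_RIC := by
  intro ε p q m hp hq hm hpe hqe hk x hx k R
  have h0 := hx 0
  have h1 := hx 1
  have h2 := hx 2
  have h3 := hx 3
  have h4 := hx 4
  have h5 := hx 5
  have hk' : 0 < k := hk
  have hR : ∀ e, R e = 1 / (2 * x e) + 1 / (4 * dF ε p q m e) *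
    ∑ i, ∑ j, AF ε p q m i j e * (x e / (x i * x j) - x i / (x j * x e) - x j / (x i * x e)) :=
    fun e ↦ rfl
  have hkd : (2 * p + 2 * q + m + 2 * ε) = k := rfl
  refine ⟨?_, ?_, ?_, ?_, ?_, ?_⟩
  · rw [hR 0, sum_AF ε p q m 0 (fun i j ↦ x 0 / (x i * x j) - x i / (x j * x 0) -
      x j / (x i * x 0)),
      sum_ind 0 1 2 0 {(1, 2), (2, 1)} (by decide),
      sum_ind 0 1 3 0 {(1, 3), (3, 1)} (by decide),
      sum_ind 0 4 5 0 {(4, 5), (5, 4)} (by decide),
      sum_ind 1 4 5 0 ∅ (by decide),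
      sum_ind 2 4 4 0 ∅ (by decide),
      sum_ind 3 5 5 0 ∅ (by decide),
      hkd]
    rw [Finset.sum_pair (by decide), Finset.sum_pair (by decide), Finset.sum_pair (by decide)]
    simp only [Finset.sum_empty, Finset.sum_singleton, dF, cs, Matrix.cons_val]
    field_simp
    ring
  · rw [hR 1, sum_AF ε p q m 1 (fun i j ↦ x 1 / (x i * x j) - x i / (x j * x 1) -
      x j / (x i * x 1)),
      sum_ind 0 1 2 1 {(0, 2), (2, 0)} (by decide),
      sum_ind 0 1 3 1 {(0, 3), (3, 0)} (by decide),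
      sum_ind 0 4 5 1 ∅ (by decide),
      sum_ind 1 4 5 1 {(4, 5), (5, 4)} (by decide),
      sum_ind 2 4 4 1 ∅ (by decide),
      sum_ind 3 5 5 1 ∅ (by decide),
      hkd]
    rw [Finset.sum_pair (by decide), Finset.sum_pair (by decide), Finset.sum_pair (by decide)]
    simp only [Finset.sum_empty, Finset.sum_singleton, dF, cs, Matrix.cons_val]
    field_simp
    ring
  · rw [hR 2, sum_AF ε p q m 2 (fun i j ↦ x 2 / (x i * x j) - x i / (x j * x 2) -
      x j / (x i * x 2)),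
      sum_ind 0 1 2 2 {(0, 1), (1, 0)} (by decide),
      sum_ind 0 1 3 2 ∅ (by decide),
      sum_ind 0 4 5 2 ∅ (by decide),
      sum_ind 1 4 5 2 ∅ (by decide),
      sum_ind 2 4 4 2 {(4, 4)} (by decide),
      sum_ind 3 5 5 2 ∅ (by decide),
      hkd]
    rw [Finset.sum_pair (by decide)]
    simp only [Finset.sum_empty, Finset.sum_singleton, dF, cs, Matrix.cons_val]
    field_simp
    ring
  · rw [hR 3, sum_AF ε p q m 3 (fun i j ↦ x 3 / (x i * x j) - x i / (x j * x 3) -
      x j / (x i * x 3)),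
      sum_ind 0 1 2 3 ∅ (by decide),
      sum_ind 0 1 3 3 {(0, 1), (1, 0)} (by decide),
      sum_ind 0 4 5 3 ∅ (by decide),
      sum_ind 1 4 5 3 ∅ (by decide),
      sum_ind 2 4 4 3 ∅ (by decide),
      sum_ind 3 5 5 3 {(5, 5)} (by decide),
      hkd]
    rw [Finset.sum_pair (by decide)]
    simp only [Finset.sum_empty, Finset.sum_singleton, dF, cs, Matrix.cons_val]
    field_simp
    ring
  · rw [hR 4, sum_AF ε p q m 4 (fun i j ↦ x 4 / (x i * x j) - x i / (x j * x 4) -
      x j / (x i * x 4)),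
      sum_ind 0 1 2 4 ∅ (by decide),
      sum_ind 0 1 3 4 ∅ (by decide),
      sum_ind 0 4 5 4 {(0, 5), (5, 0)} (by decide),
      sum_ind 1 4 5 4 {(1, 5), (5, 1)} (by decide),
      sum_ind 2 4 4 4 {(2, 4), (4, 2)} (by decide),
      sum_ind 3 5 5 4 ∅ (by decide),
      hkd]
    rw [Finset.sum_pair (by decide), Finset.sum_pair (by decide), Finset.sum_pair (by decide)]
    simp only [Finset.sum_empty, Finset.sum_singleton, dF, cs, Matrix.cons_val]
    field_simp
    ring
  · rw [hR 5, sum_AF ε p q m 5 (fun i j ↦ x 5 / (x i * x j) - x i / (x j * x 5) -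
      x j / (x i * x 5)),
      sum_ind 0 1 2 5 ∅ (by decide),
      sum_ind 0 1 3 5 ∅ (by decide),
      sum_ind 0 4 5 5 {(0, 4), (4, 0)} (by decide),
      sum_ind 1 4 5 5 {(1, 4), (4, 1)} (by decide),
      sum_ind 2 4 4 5 ∅ (by decide),
      sum_ind 3 5 5 5 {(3, 5), (5, 3)} (by decide),
      hkd]
    rw [Finset.sum_pair (by decide), Finset.sum_pair (by decide), Finset.sum_pair (by decide)]
    simp only [Finset.sum_empty, Finset.sum_singleton, dF, cs, Matrix.cons_val]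
    field_simp
    ring

end Pool.Agent.Helper8.DH
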